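import Pool.Agent.J6H38.ONL.Main

/-!
# The `p`-operator norm localization property and property A

For `1 ≤ p < ∞`: the `p`-operator norm localization property implies property A for all metric
spaces of bounded geometry if and only if `p > 1`.

For `1 < p < ∞` the proof is by duality. If the kernels built from local families
`∑ ξ i x ^ p / p + η i x ^ q / q ≤ 1` do not reach a constant `κ < c` on pairs at distance `≤ r`,
the Hahn-Banach theorem gives weights `t`, `α`, and the operator with kernel
`t(x, y) α(x)^(-1/p) α(y)^(-1/q)` violates the localization property. From a kernel bounded below
by a constant at all scales one gets slowly varying vectors: pass to `ℓ²`, take the vectors of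
minimal norm in the convex hulls over balls of increasing radius, and average over the radii.
For `p = 1` every space of bounded geometry has the localization property (with points as
supports), but there are box spaces without property A.

The definitions are in `Pool/Agent/J6H38/ONL/Defs.lean`.
-/

namespace Pool.Agent.Results.MP_e081a1_an.OnlImpliesA

open Pool.Agent.J6H38.ONL MeasureTheory
open scoped ENNReal

/-- For `1 ≤ p < ∞`, the `p`-operator norm localization property implies property A for all metric
spaces of bounded geometry if and only if `1 < p`. -/
theorem _root_.Pool.Agent.Results.MP_e081a1_an.OnlImpliesA.result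
    (p : ℝ≥0∞) [Fact (1 ≤ p)] (hp : p ≠ ⊤) :
    (∀ (X : Type) [MetricSpace X] [MeasurableSpace X] [BorelSpace X],
      BoundedGeom X → ONL p X → PropertyA X) ↔ 1 < p := by
  constructor
  · intro h
    by_contra hcon
    have h1 : p = 1 := le_antisymm (not_lt.mp hcon) (Fact.out : (1 : ℝ≥0∞) ≤ p)
    subst h1
    obtain ⟨X, hX, hbg, hA⟩ := exists_not_propertyA
    letI : MeasurableSpace X := borel X
    haveI : BorelSpace X := ⟨rfl⟩
    exact hA (h X hbg (onl_one hbg))
  · intro h1 X _ _ _ hbg h
    exact propA_of_onl hp h1 hbg h

end Pool.Agent.Results.MP_e081a1_an.OnlImpliesA
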